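import Pool.Agent.H39Z.SSS.Final

/-!
# There is exactly one trace-minimising arithmetic measure
-/

namespace Pool.Agent.Results.MP_d35819_nt.AUniqueOptimal

open MeasureTheory Pool.Agent.H39Z.SSS

/-- There is exactly one arithmetic probability measure with compact support in `[0, ∞)` whose
mean is the Schur-Siegel-Smyth constant. -/
theorem result : ∃! μ : Measure ℝ, IsProbabilityMeasure μ ∧ IsCompact μ.support ∧
    μ.support ⊆ Set.Ici 0 ∧ IsArith μ ∧ ((∫ x, x ∂μ : ℝ) : EReal) = lamSSS :=
  existsUnique_of_exists_of_unique exists_optimal fun _ _ => optimal_unique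

end Pool.Agent.Results.MP_d35819_nt.AUniqueOptimal
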